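import Mathlib

/-!
The Wronskian argument.
-/

set_option autoImplicit false

namespace Pool.Agent.K3h53.Cyc

variable {F Ω : Type} [Field F] [Field Ω] [Algebra F Ω]

theorem core (δ : Derivation ℤ Ω Ω)
    (hconst : ∀ z : Ω, δ z = 0 → z ∈ Set.range (algebraMap F Ω))
    {ι : Type} [Fintype ι] (y : ι → Ω) (hy : LinearIndependent F y)
    (r : ℕ) (hr : r < Fintype.card ι) (p : Fin r → Ω)
    (h : ∀ i, δ^[r] (y i) = ∑ j : Fin r, p j * δ^[(j : ℕ)] (y i)) : False := by
  classical
  rcases Nat.eq_zero_or_pos r with h0 | hpos
  · subst h0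
    have hne : Nonempty ι := Fintype.card_pos_iff.1 hr
    obtain ⟨i⟩ := hne
    have := h i
    simp only [Function.iterate_zero, id, Finset.univ_eq_empty, Finset.sum_empty] at this
    exact hy.ne_zero i this
  · -- the kernel
    let f : (ι → Ω) →ₗ[Ω] (Fin r → Ω) :=
      { toFun := fun c j => ∑ i, c i * δ^[(j : ℕ)] (y i)
        map_add' := by
          intro c c'
          ext j
          simp only [Pi.add_apply, add_mul, Finset.sum_add_distrib]
        map_smul' := by
          intro a c
          ext j
          simp only [Pi.smul_apply, smul_eq_mul, RingHom.id_apply, Finset.mul_sum, mul_assoc] }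
    have hker : LinearMap.ker f ≠ ⊥ := by
      apply LinearMap.ker_ne_bot_of_finrank_lt
      simpa using hr
    rw [Submodule.ne_bot_iff] at hker
    -- minimal support
    let Q : ℕ → Prop := fun n => ∃ c : ι → Ω, f c = 0 ∧ c ≠ 0 ∧
      (Finset.univ.filter fun i => c i ≠ 0).card = n
    have hQ : ∃ n, Q n := by
      obtain ⟨c, hc, hc0⟩ := hker
      exact ⟨_, c, hc, hc0, rfl⟩
    obtain ⟨c, hc, hc0, hcard⟩ := Nat.find_spec hQ
    obtain ⟨i0, hi0⟩ := Function.ne_iff.1 hc0
    rw [Pi.zero_apply] at hi0
    -- normalise
    let c1 : ι → Ω := (c i0)⁻¹ • c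
    have hc1 : f c1 = 0 := by
      rw [show c1 = (c i0)⁻¹ • c from rfl, map_smul, hc, smul_zero]
    have hc1i : c1 i0 = 1 := by
      change (c i0)⁻¹ * c i0 = 1
      exact inv_mul_cancel₀ hi0
    have hc1s : ∀ i, c1 i ≠ 0 ↔ c i ≠ 0 := by
      intro i
      change (c i0)⁻¹ * c i ≠ 0 ↔ c i ≠ 0
      simp [hi0]
    -- the derivative is again in the kernel
    have hf : ∀ j : ℕ, j < r → ∑ i, c1 i * δ^[j] (y i) = 0 := by
      intro j hj
      have := congrFun hc1 ⟨j, hj⟩
      exact this
    have hder : f (fun i => δ (c1 i)) = 0 := by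
      ext j
      change ∑ i, δ (c1 i) * δ^[(j : ℕ)] (y i) = 0
      have h1 := congrArg δ (hf j j.isLt)
      rw [map_zero, map_sum] at h1
      have h2 : ∀ i, δ (c1 i * δ^[(j : ℕ)] (y i)) =
          δ (c1 i) * δ^[(j : ℕ)] (y i) + c1 i * δ^[(j : ℕ) + 1] (y i) := by
        intro i
        rw [Derivation.leibniz, Function.iterate_succ_apply', smul_eq_mul, smul_eq_mul]
        ring
      simp_rw [h2] at h1
      rw [Finset.sum_add_distrib] at h1
      have h3 : ∑ i, c1 i * δ^[(j : ℕ) + 1] (y i) = 0 := by
        by_cases hj : (j : ℕ) + 1 < r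
        · exact hf _ hj
        · have hj' : (j : ℕ) + 1 = r := by
            have := j.isLt
            omega
          rw [hj']
          simp_rw [h]
          simp_rw [Finset.mul_sum]
          rw [Finset.sum_comm]
          apply Finset.sum_eq_zero
          intro k _
          have h4 := hf k k.isLt
          calc ∑ i, c1 i * (p k * δ^[(k : ℕ)] (y i)) = p k * ∑ i, c1 i * δ^[(k : ℕ)] (y i) := by
                rw [Finset.mul_sum]
                refine Finset.sum_congr rfl fun i _ => ?_
                ring
            _ = 0 := by rw [h4, mul_zero]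
      rw [h3, add_zero] at h1
      exact h1
    -- hence zero
    have hzero : (fun i => δ (c1 i)) = 0 := by
      by_contra hne
      have hQ' : Q (Finset.univ.filter fun i => δ (c1 i) ≠ 0).card := ⟨_, hder, hne, rfl⟩
      have h5 : Nat.find hQ ≤ (Finset.univ.filter fun i => δ (c1 i) ≠ 0).card := Nat.find_min' hQ hQ'
      have h6 : (Finset.univ.filter fun i => δ (c1 i) ≠ 0).card <
          (Finset.univ.filter fun i => c i ≠ 0).card := by
        apply Finset.card_lt_card
        rw [Finset.ssubset_iff_of_subset]
        · refine ⟨i0, by simp [hi0], ?_⟩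
          simp only [Finset.mem_filter, Finset.mem_univ, true_and, not_not]
          rw [hc1i]
          exact δ.map_one_eq_zero
        · intro i hi
          simp only [Finset.mem_filter, Finset.mem_univ, true_and] at hi ⊢
          rw [← hc1s]
          intro hci
          apply hi
          rw [hci, map_zero]
      rw [hcard] at h6
      omega
    have hF : ∀ i, ∃ a : F, algebraMap F Ω a = c1 i := fun i => hconst _ (congrFun hzero i)
    choose a ha using hF
    have h7 := hf 0 hpos
    simp only [Function.iterate_zero, id] at h7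
    have h8 : ∑ i, a i • y i = 0 := by
      rw [← h7]
      refine Finset.sum_congr rfl fun i _ => ?_
      rw [Algebra.smul_def, ha]
    have h9 := (Fintype.linearIndependent_iff.1 hy) a h8 i0
    have h10 := ha i0
    rw [h9, map_zero, hc1i] at h10
    exact zero_ne_one h10

end Pool.Agent.K3h53.Cyc
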