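import Pool.Agent.K3h17.Stm
import Pool.Agent.K3h53.Cyc.Wron

/-!
Brick D1 of the project of helper17: a cyclic vector.
-/

set_option autoImplicit false

namespace Pool.Agent.K3h53.Cyc

theorem t_cyc : Pool.Agent.K3h17.St_cyc := by
  intro F Ω _ _ _ _ _ _ δ hF hcomm hconst P
  classical
  let b := IsGalois.normalBasis F Ω
  have hb : ∀ γ : Ω ≃ₐ[F] Ω, b γ = γ (b 1) := fun γ => IsGalois.normalBasis_apply γ
  have : Fintype P := Fintype.ofFinite P
  have : Fintype ((Ω ≃ₐ[F] Ω) ⧸ P) := Fintype.ofFinite _
  let y : Ω := ∑ p : P, (p : Ω ≃ₐ[F] Ω) (b 1)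
  have hγy : ∀ γ : Ω ≃ₐ[F] Ω, γ y = ∑ p : P, b (γ * p) := by
    intro γ
    change γ (∑ p : P, (p : Ω ≃ₐ[F] Ω) (b 1)) = _
    rw [map_sum]
    refine Finset.sum_congr rfl fun p _ => ?_
    rw [hb (γ * p)]
    rfl
  have hy1 : y = ∑ p : P, b (p : Ω ≃ₐ[F] Ω) := by
    refine Finset.sum_congr rfl fun p _ => ?_
    rw [hb p]
  have hcoord : ∀ (i γ : Ω ≃ₐ[F] Ω), b.coord i (γ y) = ∑ p : P, if γ * p = i then 1 else 0 := by
    intro i γ
    rw [hγy γ, map_sum]
    refine Finset.sum_congr rfl fun p _ => ?_
    rw [Module.Basis.coord_apply, Module.Basis.repr_self, Finsupp.single_apply]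
  have hfix : ∀ γ : Ω ≃ₐ[F] Ω, γ y = y ↔ γ ∈ P := by
    intro γ
    constructor
    · intro h
      by_contra hγ
      have h1 := hcoord γ γ
      have h2 := hcoord γ 1
      rw [h] at h1
      rw [AlgEquiv.one_apply, h1] at h2
      have h3 : ∑ p : P, (if γ * (p : Ω ≃ₐ[F] Ω) = γ then (1 : F) else 0) = 1 := by
        rw [Finset.sum_eq_single (1 : P)]
        · simp
        · intro p _ hp
          rw [if_neg]
          intro h4
          apply hp
          apply Subtype.ext
          exact mul_eq_left.1 h4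
        · intro h4
          exact absurd (Finset.mem_univ _) h4
      have h4 : ∑ p : P, (if (1 : Ω ≃ₐ[F] Ω) * (p : Ω ≃ₐ[F] Ω) = γ then (1 : F) else 0) = 0 := by
        apply Finset.sum_eq_zero
        intro p _
        rw [if_neg]
        intro h5
        apply hγ
        rw [← h5, one_mul]
        exact p.2
      rw [h3, h4] at h2
      exact one_ne_zero h2
    · intro h
      rw [hγy γ, hy1]
      exact Fintype.sum_equiv (Equiv.mulLeft (⟨γ, h⟩ : P)) _ _ fun p => rfl
  -- the conjugates
  have hlin : LinearIndependent F (fun q : (Ω ≃ₐ[F] Ω) ⧸ P => q.out y) := by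
    rw [Fintype.linearIndependent_iff]
    intro a ha q0
    have h1 := congrArg (b.coord q0.out) ha
    rw [map_sum, map_zero] at h1
    simp_rw [map_smul] at h1
    rw [Finset.sum_eq_single q0] at h1
    · rw [hcoord, Finset.sum_eq_single (1 : P)] at h1
      · simpa using h1
      · intro p _ hp
        rw [if_neg]
        intro h4
        apply hp
        apply Subtype.ext
        exact mul_eq_left.1 h4
      · intro h4
        exact absurd (Finset.mem_univ _) h4
    · intro q _ hq
      rw [hcoord, Finset.sum_eq_zero, smul_zero]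
      intro p _
      rw [if_neg]
      intro h4
      apply hq
      have h5 : (QuotientGroup.mk (q.out * (p : Ω ≃ₐ[F] Ω)) : (Ω ≃ₐ[F] Ω) ⧸ P) =
          QuotientGroup.mk q.out := by
        rw [QuotientGroup.mk_mul_of_mem _ p.2]
      rw [h4] at h5
      rw [← QuotientGroup.out_eq' q, ← QuotientGroup.out_eq' q0]
      exact h5.symm
    · intro h4
      exact absurd (Finset.mem_univ _) h4
  have hcm : ∀ (γ : Ω ≃ₐ[F] Ω) (j : ℕ) (z : Ω), δ^[j] (γ z) = γ (δ^[j] z) := by
    intro γ j z
    induction j with
    | zero => rfl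
    | succ j ih =>
      rw [Function.iterate_succ_apply', Function.iterate_succ_apply', ih, hcomm]
  have hind : ∀ r : ℕ, r ≤ P.index → LinearIndependent F (fun j : Fin r => δ^[(j : ℕ)] y) := by
    intro r
    induction r with
    | zero =>
      intro _
      exact linearIndependent_empty_type
    | succ r ih =>
      intro hr
      rw [linearIndependent_finSucc']
      refine ⟨ih (by omega), ?_⟩
      intro hmem
      rw [Submodule.mem_span_range_iff_exists_fun] at hmem
      obtain ⟨c, hc⟩ := hmem
      simp only [Fin.init, Fin.val_castSucc, Fin.val_last] at hc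
      refine core δ hconst (fun q : (Ω ≃ₐ[F] Ω) ⧸ P => q.out y) hlin r ?_
        (fun j => algebraMap F Ω (c j)) ?_
      · rw [← Nat.card_eq_fintype_card, ← Subgroup.index_eq_card]
        omega
      · intro q
        simp only [hcm]
        rw [← hc, map_sum]
        refine Finset.sum_congr rfl fun j _ => ?_
        rw [map_smul, Algebra.smul_def]
  refine ⟨y, hfix, ?_⟩
  intro z hz
  -- the fixed field
  let E := IntermediateField.fixedField P
  have hEmem : ∀ u : Ω, (∀ γ ∈ P, γ u = u) → u ∈ E := by
    intro u hu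
    rw [IntermediateField.mem_fixedField_iff]
    exact hu
  have hyj : ∀ j : ℕ, δ^[j] y ∈ E := by
    intro j
    apply hEmem
    intro γ hγ
    rw [← hcm, (hfix γ).2 hγ]
  let v : Fin P.index → E := fun j => ⟨δ^[(j : ℕ)] y, hyj j⟩
  have hv : LinearIndependent F v := by
    apply LinearIndependent.of_comp (E.val.toLinearMap)
    exact hind P.index le_rfl
  have hrank : Fintype.card (Fin P.index) = Module.finrank F E := by
    rw [Fintype.card_fin]
    have h1 : Module.finrank F E * Module.finrank E Ω = Module.finrank F Ω :=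
      Module.finrank_mul_finrank F E Ω
    have h2 : Module.finrank E Ω = Nat.card P := IntermediateField.finrank_fixedField_eq_card P
    have h3 : Nat.card (Ω ≃ₐ[F] Ω) = Module.finrank F Ω := IsGalois.card_aut_eq_finrank F Ω
    have h4 : P.index * Nat.card P = Nat.card (Ω ≃ₐ[F] Ω) := P.index_mul_card
    have h5 : 0 < Nat.card P := Nat.card_pos
    rw [← h3, ← h4, h2] at h1
    exact (Nat.eq_of_mul_eq_mul_right h5 h1).symm
  have hspan := hv.span_eq_top_of_card_eq_finrank' hrank
  have hzE : (⟨z, hEmem z hz⟩ : E) ∈ Submodule.span F (Set.range v) := by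
    rw [hspan]
    exact Submodule.mem_top
  rw [Submodule.mem_span_range_iff_exists_fun] at hzE
  obtain ⟨c, hc⟩ := hzE
  refine ⟨fun j => if h : j < P.index then c ⟨j, h⟩ else 0, ?_⟩
  have h1 := congrArg (fun u : E => (u : Ω)) hc
  simp only at h1
  rw [← h1, Finset.sum_range]
  have h2 : ((∑ i, c i • v i : E) : Ω) = ∑ i, c i • (v i : Ω) := by
    have := map_sum E.val (fun i => c i • v i) Finset.univ
    simpa using this
  rw [h2]
  refine Finset.sum_congr rfl fun j _ => ?_
  have h3 : (fun j => if h : j < P.index then c ⟨j, h⟩ else 0) (j : ℕ) = c j := by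
    simp only
    rw [dif_pos j.isLt]
  rw [h3, Algebra.smul_def]

end Pool.Agent.K3h53.Cyc
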